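import Pool.Agent.K1H93.NF.Stm

/-!
# Descent in a number field (piece `S_DSC` for helper93)
-/

set_option autoImplicit false

open NumberField UniqueFactorizationMonoid

namespace Pool.Agent.K1H65.NF

/-! ## Ideals -/

section ideals

variable {R : Type} [CommRing R] [IsDedekindDomain R]

open Classical in
lemma exists_D {n : ℕ} (hn : 1 ≤ n) {y g h a e : R} (hy : y ≠ 0) (ha : a ≠ 0)
    (hyg : y * g = a * h ^ n) (hspan : e ∈ Ideal.span ({y, g, h} : Set R)) :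
    ∃ D B : Ideal R, Ideal.span {y} * D = B ^ n ∧ D ∣ (Ideal.span {a * e}) ^ (n - 1) ∧ B ≠ ⊥ := by
  set f : Ideal R := Ideal.span {y} with hf
  have hf0 : f ≠ ⊥ := by
    rw [hf, Ne, Ideal.span_singleton_eq_bot]
    exact hy
  let c : Ideal R → ℕ := fun P => (normalizedFactors f).count P
  let ε : Ideal R → ℕ := fun P => ((n - 1) * c P) % n
  let Ps := (normalizedFactors f).toFinset
  have hPs : ∀ P ∈ Ps, Prime P := fun P hP =>
    prime_of_normalized_factor P (Multiset.mem_toFinset.mp hP)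
  have hfprod : f = ∏ P ∈ Ps, P ^ c P := by
    conv_lhs => rw [← Ideal.prod_normalizedFactors_eq_self hf0]
    exact Finset.prod_multiset_count _
  have hdiv : ∀ P, n ∣ c P + ε P := by
    intro P
    have h1 : n ∣ c P + (n - 1) * c P := by
      refine ⟨c P, ?_⟩
      obtain ⟨n', rfl⟩ : ∃ n', n = n' + 1 := ⟨n - 1, by omega⟩
      rw [Nat.add_sub_cancel]
      ring
    have h2 : (n - 1) * c P = ε P + n * ((n - 1) * c P / n) := (Nat.mod_add_div _ _).symm
    rw [h2, ← add_assoc] at h1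
    exact (Nat.dvd_add_left (dvd_mul_right _ _)).mp h1
  have hlt : ∀ P, ε P ≤ n - 1 := by
    intro P
    have := Nat.mod_lt ((n - 1) * c P) (show n > 0 by omega)
    change ((n - 1) * c P) % n ≤ n - 1
    omega
  have key : ∀ P ∈ Ps, ε P ≠ 0 → P ∣ Ideal.span {a * e} := by
    intro P hP hε
    by_contra hPa
    apply hε
    have hPp := hPs P hP
    have hPid : P.IsPrime := Ideal.isPrime_of_prime hPp
    rw [Ideal.dvd_span_singleton] at hPa
    have haP : a ∉ P := fun h => hPa (P.mul_mem_right _ h)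
    have heP : e ∉ P := fun h => hPa (P.mul_mem_left _ h)
    have hyP : y ∈ P := by
      rw [← Ideal.dvd_span_singleton, ← hf]
      exact dvd_of_mem_normalizedFactors (Multiset.mem_toFinset.mp hP)
    have hnot : ¬ (g ∈ P ∧ h ∈ P) := by
      rintro ⟨hg, hh⟩
      apply heP
      have : Ideal.span ({y, g, h} : Set R) ≤ P := by
        rw [Ideal.span_le]
        rintro x (rfl | rfl | rfl)
        · exact hyP
        · exact hg
        · exact hh
      exact this hspan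
    have hgP : g ∉ P := by
      intro hg
      apply hnot ⟨hg, ?_⟩
      have h1 : a * h ^ n ∈ P := by
        rw [← hyg]
        exact P.mul_mem_right _ hyP
      rcases hPid.mem_or_mem h1 with h2 | h2
      · exact absurd h2 haP
      · exact hPid.mem_of_pow_mem _ h2
    have hg0 : g ≠ 0 := by
      rintro rfl
      exact hgP P.zero_mem
    have hh0 : h ≠ 0 := by
      rintro rfl
      rw [zero_pow (by omega), mul_zero] at hyg
      exact (mul_ne_zero hy hg0) hyg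
    have hprod : f * Ideal.span {g} = Ideal.span {a} * (Ideal.span {h}) ^ n := by
      rw [hf, Ideal.span_singleton_mul_span_singleton, Ideal.span_singleton_pow,
        Ideal.span_singleton_mul_span_singleton, hyg]
    have hb : ∀ x : R, x ≠ 0 → Ideal.span {x} ≠ 0 := fun x hx => by
      rw [Ne, Ideal.zero_eq_bot, Ideal.span_singleton_eq_bot]
      exact hx
    have hcount := congrArg (fun I => (normalizedFactors I).count P) hprod
    simp only [normalizedFactors_mul hf0 (hb g hg0),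
      normalizedFactors_mul (hb a ha) (pow_ne_zero n (hb h hh0)), normalizedFactors_pow,
      Multiset.count_add, Multiset.count_nsmul] at hcount
    have hc0 : ∀ x : R, x ∉ P → (normalizedFactors (Ideal.span {x})).count P = 0 := by
      intro x hx
      rw [Multiset.count_eq_zero]
      intro hmem
      apply hx
      rw [← Ideal.dvd_span_singleton]
      exact dvd_of_mem_normalizedFactors hmem
    rw [hc0 g hgP, hc0 a haP, add_zero, zero_add] at hcount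
    change ((n - 1) * c P) % n = 0
    have : c P = n * (normalizedFactors (Ideal.span {h})).count P := hcount
    rw [this]
    exact Nat.mod_eq_zero_of_dvd
      (Dvd.intro ((n - 1) * (normalizedFactors (Ideal.span {h})).count P) (by ring))
  let D : Ideal R := ∏ P ∈ Ps, P ^ ε P
  let B : Ideal R := ∏ P ∈ Ps, P ^ ((c P + ε P) / n)
  have hprodDB : f * D = B ^ n := by
    rw [hfprod, ← Finset.prod_mul_distrib, ← Finset.prod_pow]
    refine Finset.prod_congr rfl fun P _ => ?_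
    rw [← pow_add, ← pow_mul, Nat.div_mul_cancel (hdiv P)]
  refine ⟨D, B, hprodDB, ?_, ?_⟩
  · have h1 : D = ∏ P ∈ Ps.filter (fun P => ε P ≠ 0), P ^ ε P := by
      rw [Finset.prod_filter_of_ne]
      intro P _ hP h0
      apply hP
      rw [h0, pow_zero]
    rw [h1]
    have h2 : ∏ P ∈ Ps.filter (fun P => ε P ≠ 0), P ^ ε P ∣
        ∏ P ∈ Ps.filter (fun P => ε P ≠ 0), P ^ (n - 1) :=
      Finset.prod_dvd_prod_of_dvd _ _ fun P _ => pow_dvd_pow P (hlt P)
    refine h2.trans ?_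
    rw [Finset.prod_pow]
    apply pow_dvd_pow_of_dvd
    apply Finset.prod_primes_dvd
    · intro P hP
      exact hPs P (Finset.mem_filter.mp hP).1
    · intro P hP
      exact key P (Finset.mem_filter.mp hP).1 (Finset.mem_filter.mp hP).2
  · have : B ≠ 0 := by
      rw [Finset.prod_ne_zero_iff]
      intro P hP
      exact pow_ne_zero _ (hPs P hP).ne_zero
    exact this

end ideals

/-! ## The class group -/

section classgroup

variable (k : Type) [Field k] [NumberField k]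

lemma exists_q : ∃ c₁ : ℕ, 1 ≤ c₁ ∧ ∀ B : Ideal (𝓞 k), B ≠ ⊥ → ∃ (q : Ideal (𝓞 k)) (s : 𝓞 k),
    q ≠ ⊥ ∧ Ideal.absNorm q ≤ c₁ ∧ B * q = Ideal.span {s} := by
  classical
  have hsurj : ∀ x : ClassGroup (𝓞 k), ∃ I : nonZeroDivisors (Ideal (𝓞 k)),
      ClassGroup.mk0 I = x := ClassGroup.mk0_surjective
  choose I hI using hsurj
  obtain ⟨c, hc⟩ : ∃ c : ℕ, ∀ x, Ideal.absNorm (I x : Ideal (𝓞 k)) ≤ c := by
    obtain ⟨c, hc⟩ := (Set.finite_range fun x => Ideal.absNorm (I x : Ideal (𝓞 k))).bddAbove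
    exact ⟨c, fun x => hc ⟨x, rfl⟩⟩
  refine ⟨1 + c, by omega, fun B hB => ?_⟩
  have hB' : B ∈ nonZeroDivisors (Ideal (𝓞 k)) := mem_nonZeroDivisors_of_ne_zero hB
  let x := (ClassGroup.mk0 ⟨B, hB'⟩)⁻¹
  have h1 : ClassGroup.mk0 (I x) = (ClassGroup.mk0 ⟨B, hB'⟩)⁻¹ := hI x
  obtain ⟨s, hs0, hs⟩ := ClassGroup.mk0_eq_mk0_inv_iff.mp h1
  refine ⟨I x, s, nonZeroDivisors.coe_ne_zero _, (hc x).trans (by omega), ?_⟩
  rw [mul_comm]
  exact hs

end classgroup

/-! ## Units -/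

section units

variable (k : Type) [Field k] [NumberField k]

open mixedEmbedding mixedEmbedding.fundamentalCone

/-- the absolute norm as a real number -/
noncomputable def nr (α : 𝓞 k) : ℝ := |(Algebra.norm ℚ (α : k) : ℝ)|

lemma norm_emb (α : 𝓞 k) : mixedEmbedding.norm (mixedEmbedding k (α : k)) = nr k α := by
  rw [norm_eq_norm, nr, Rat.cast_abs]

lemma nr_eq (α : 𝓞 k) : nr k α = (Ideal.absNorm (Ideal.span {α}) : ℝ) := by
  rw [Ideal.absNorm_span_singleton, nr, ← Algebra.coe_norm_int, Nat.cast_natAbs]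
  push_cast
  rfl

lemma one_le_nr {α : 𝓞 k} (hα : α ≠ 0) : 1 ≤ nr k α := by
  rw [nr_eq]
  have : Ideal.absNorm (Ideal.span {α}) ≠ 0 := by
    rw [Ne, Ideal.absNorm_eq_zero_iff, Ideal.span_singleton_eq_bot]
    exact hα
  exact_mod_cast Nat.one_le_iff_ne_zero.mpr this

/-- multiplication by a unit makes the conjugates small -/
lemma exists_unit : ∃ c : ℝ, 0 < c ∧ ∀ α : 𝓞 k, α ≠ 0 → ∃ u : (𝓞 k)ˣ, ∀ τ : k →+* ℂ,
    ‖τ ((α * u : 𝓞 k) : k)‖ ≤ c * nr k α := by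
  classical
  obtain ⟨B, hB⟩ := isBounded_iff_forall_norm_le.mp (isBounded_normLeOne k)
  refine ⟨max B 1, lt_of_lt_of_le one_pos (le_max_right _ _), fun α hα => ?_⟩
  have hN1 := one_le_nr k hα
  have hN0 : nr k α ≠ 0 := by linarith
  have h1 : mixedEmbedding.norm (mixedEmbedding k (α : k)) ≠ 0 := by
    rw [norm_emb]
    exact hN0
  obtain ⟨u, hu⟩ := exists_unit_smul_mem h1
  refine ⟨u, fun τ => ?_⟩
  set x := u • mixedEmbedding k (α : k) with hx
  have hxN : mixedEmbedding.norm x = nr k α := by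
    rw [hx, norm_unit_smul, norm_emb]
  have h2 : (nr k α)⁻¹ • x ∈ normLeOne k := by
    rw [mem_normLeOne]
    refine ⟨smul_mem_of_mem hu (inv_ne_zero hN0), ?_⟩
    rw [mixedEmbedding.norm_smul, hxN]
    have h3 : |(nr k α)⁻¹| = (nr k α)⁻¹ := abs_of_pos (by positivity)
    rw [h3]
    have h4 : 1 ≤ Module.finrank ℚ k := Module.finrank_pos
    obtain ⟨m', hm'⟩ : ∃ m', Module.finrank ℚ k = m' + 1 := ⟨Module.finrank ℚ k - 1, by omega⟩
    rw [hm', pow_succ, mul_assoc, inv_mul_cancel₀ hN0, mul_one]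
    exact pow_le_one₀ (by positivity) (inv_le_one_of_one_le₀ hN1)
  have h3 := hB _ h2
  have h4 : normAtPlace (InfinitePlace.mk τ) ((nr k α)⁻¹ • x) ≤ ‖(nr k α)⁻¹ • x‖ := by
    rw [norm_eq_sup'_normAtPlace]
    exact Finset.le_sup' (fun w => normAtPlace w ((nr k α)⁻¹ • x)) (Finset.mem_univ _)
  rw [normAtPlace_smul] at h4
  have h5 : |(nr k α)⁻¹| = (nr k α)⁻¹ := abs_of_pos (by positivity)
  rw [h5] at h4
  have h6 : normAtPlace (InfinitePlace.mk τ) x = ‖τ ((α * u : 𝓞 k) : k)‖ := by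
    have h7 : x = mixedEmbedding k ((α * u : 𝓞 k) : k) := by
      rw [hx, mixedEmbedding.unitSMul_smul, ← map_mul, mul_comm α]
      rfl
    rw [h7, normAtPlace_apply, InfinitePlace.apply]
  rw [h6] at h4
  have h7 : (nr k α)⁻¹ * ‖τ ((α * u : 𝓞 k) : k)‖ ≤ max B 1 := h4.trans (h3.trans (le_max_left _ _))
  rw [inv_mul_le_iff₀ (by linarith)] at h7
  linarith [mul_comm (nr k α) (max B 1)]

/-- the same with an `n`-th power of a unit -/
lemma exists_unit_pow (n : ℕ) (hn : 1 ≤ n) : ∃ c : ℝ, 0 < c ∧ ∀ α : 𝓞 k, α ≠ 0 →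
    ∃ u : (𝓞 k)ˣ, ∀ τ : k →+* ℂ, ‖τ ((α * u ^ n : 𝓞 k) : k)‖ ≤ c * nr k α := by
  classical
  obtain ⟨c, hc, hα⟩ := exists_unit k
  let H : Subgroup (𝓞 k)ˣ := (powMonoidHom n : (𝓞 k)ˣ →* (𝓞 k)ˣ).range
  have hfin : Finite ((𝓞 k)ˣ ⧸ H) := by
    have : Group.FG (𝓞 k)ˣ := Group.fg_iff_monoid_fg.mpr inferInstance
    have : Group.FG ((𝓞 k)ˣ ⧸ H) := inferInstance
    apply CommGroup.finite_of_fg_isMulTorsion
    intro x
    obtain ⟨x, rfl⟩ := QuotientGroup.mk_surjective x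
    rw [isOfFinOrder_iff_pow_eq_one]
    refine ⟨n, by omega, ?_⟩
    rw [← QuotientGroup.mk_pow, QuotientGroup.eq_one_iff]
    exact ⟨x, rfl⟩
  have hft : Fintype ((𝓞 k)ˣ ⧸ H) := Fintype.ofFinite _
  let r : (𝓞 k)ˣ ⧸ H → (𝓞 k)ˣ := Quotient.out
  let C : ℝ := 1 + ∑ q, ∑ τ : k →+* ℂ, ‖τ (((r q)⁻¹ : (𝓞 k)ˣ) : k)‖
  have hC : ∀ q (τ : k →+* ℂ), ‖τ (((r q)⁻¹ : (𝓞 k)ˣ) : k)‖ ≤ C := by
    intro q τ
    have h1 : ‖τ (((r q)⁻¹ : (𝓞 k)ˣ) : k)‖ ≤ ∑ τ : k →+* ℂ, ‖τ (((r q)⁻¹ : (𝓞 k)ˣ) : k)‖ :=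
      Finset.single_le_sum (f := fun τ : k →+* ℂ => ‖τ (((r q)⁻¹ : (𝓞 k)ˣ) : k)‖)
        (fun _ _ => norm_nonneg _) (Finset.mem_univ τ)
    have h2 : ∑ τ : k →+* ℂ, ‖τ (((r q)⁻¹ : (𝓞 k)ˣ) : k)‖ ≤
        ∑ q, ∑ τ : k →+* ℂ, ‖τ (((r q)⁻¹ : (𝓞 k)ˣ) : k)‖ :=
      Finset.single_le_sum (f := fun q => ∑ τ : k →+* ℂ, ‖τ (((r q)⁻¹ : (𝓞 k)ˣ) : k)‖)
        (fun _ _ => Finset.sum_nonneg fun _ _ => norm_nonneg _) (Finset.mem_univ q)
    linarith
  have hC0 : 0 < C := by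
    have : 0 ≤ ∑ q, ∑ τ : k →+* ℂ, ‖τ (((r q)⁻¹ : (𝓞 k)ˣ) : k)‖ :=
      Finset.sum_nonneg fun _ _ => Finset.sum_nonneg fun _ _ => norm_nonneg _
    linarith
  refine ⟨c * C, mul_pos hc hC0, fun α h0 => ?_⟩
  obtain ⟨η, hη⟩ := hα α h0
  let q : (𝓞 k)ˣ ⧸ H := (η : (𝓞 k)ˣ ⧸ H)
  have hq : ((r q : (𝓞 k)ˣ) : (𝓞 k)ˣ ⧸ H) = (η : (𝓞 k)ˣ ⧸ H) := Quotient.out_eq q
  obtain ⟨u, hu⟩ : (r q)⁻¹ * η ∈ H := QuotientGroup.eq.mp hq
  have hu' : u ^ n = (r q)⁻¹ * η := hu
  refine ⟨u, fun τ => ?_⟩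
  have h1 : ((α * u ^ n : 𝓞 k) : k) = ((α * η : 𝓞 k) : k) * (((r q)⁻¹ : (𝓞 k)ˣ) : k) := by
    have h2 : (α * (u : 𝓞 k) ^ n : 𝓞 k) = (α * η) * (((r q)⁻¹ : (𝓞 k)ˣ) : 𝓞 k) := by
      rw [← Units.val_pow_eq_pow_val, hu', Units.val_mul]
      ring
    rw [h2]
    exact map_mul (algebraMap (𝓞 k) k) _ _
  rw [h1, map_mul, norm_mul]
  calc ‖τ ((α * η : 𝓞 k) : k)‖ * ‖τ (((r q)⁻¹ : (𝓞 k)ˣ) : k)‖ ≤ (c * nr k α) * C :=
        mul_le_mul (hη τ) (hC q τ) (norm_nonneg _) ((norm_nonneg _).trans (hη τ))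
    _ = c * C * nr k α := by ring

end units

theorem t_DSC : Pool.Agent.K1H93.NF.S_DSC := by
  classical
  intro n m hn
  refine ⟨2 * m * n + 1, ?_⟩
  intro k _ _ hm
  obtain ⟨c₁, hc₁, hq⟩ := exists_q k
  obtain ⟨c₂, hc₂, hu⟩ := exists_unit_pow k n hn
  refine ⟨⌈c₂⌉₊ * c₁ ^ n, ?_, ?_⟩
  · apply Nat.succ_le_of_lt
    have : 0 < ⌈c₂⌉₊ := Nat.ceil_pos.mpr hc₂
    positivity
  intro a e0 N ha he0 haN he0N y g h hyg hspan
  have hc0 : 0 < ⌈c₂⌉₊ * c₁ ^ n := by
    have : 0 < ⌈c₂⌉₊ := Nat.ceil_pos.mpr hc₂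
    positivity
  have hN0 : 0 < N := by omega
  have hcN : 1 ≤ ⌈c₂⌉₊ * c₁ ^ n * N := Nat.succ_le_of_lt (by positivity)
  by_cases hy : y = 0
  · refine ⟨1, 0, one_ne_zero, ?_, fun τ => ?_⟩
    · rw [hy, mul_zero, zero_pow (by omega)]
    · change ‖τ (algebraMap (𝓞 k) k 1)‖ ≤ _
      rw [map_one, map_one, norm_one]
      exact one_le_pow₀ (by exact_mod_cast hcN)
  · have ha0 : (a : 𝓞 k) ≠ 0 := by
      exact_mod_cast (show a ≠ 0 by omega)
    obtain ⟨D, B, hDB, hD, hB⟩ := exists_D hn hy ha0 hyg hspan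
    obtain ⟨q, s₀, hq0, hqc, hBq⟩ := hq B hB
    have hmul : Ideal.span {y} * (D * q ^ n) = Ideal.span {s₀ ^ n} := by
      rw [← mul_assoc, hDB, ← mul_pow, hBq, Ideal.span_singleton_pow]
    have hs₀ : s₀ ≠ 0 := by
      rintro rfl
      rw [Ideal.span_singleton_eq_bot.mpr rfl] at hBq
      rcases Ideal.mul_eq_bot.mp hBq with h1 | h1
      · exact hB h1
      · exact hq0 h1
    obtain ⟨e₁, he₁⟩ : y ∣ s₀ ^ n := by
      rw [← Ideal.span_singleton_le_span_singleton, ← hmul]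
      exact Ideal.mul_le_left
    have he₁0 : e₁ ≠ 0 := by
      rintro rfl
      rw [mul_zero] at he₁
      exact hs₀ (pow_eq_zero_iff (by omega) |>.mp he₁)
    have hspan₁ : Ideal.span {e₁} = D * q ^ n := by
      have h1 : Ideal.span {y} * Ideal.span {e₁} = Ideal.span {y} * (D * q ^ n) := by
        rw [hmul, he₁, Ideal.span_singleton_mul_span_singleton]
      refine mul_left_cancel₀ ?_ h1
      rw [Ne, Ideal.zero_eq_bot, Ideal.span_singleton_eq_bot]
      exact hy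
    have hnorm : nr k e₁ ≤ ((N ^ (2 * m * n) * c₁ ^ n : ℕ) : ℝ) := by
      rw [nr_eq, hspan₁, map_mul, map_pow]
      have h1 : Ideal.absNorm D ≤ N ^ (2 * m * n) := by
        have h2 : Ideal.absNorm D ∣ (a * e0) ^ (m * (n - 1)) := by
          have h3 := map_dvd Ideal.absNorm hD
          rw [map_pow, Ideal.absNorm_span_singleton, ← Nat.cast_mul] at h3
          have h4 : Algebra.norm ℤ (((a * e0 : ℕ) : 𝓞 k)) = ((a * e0 : ℕ) : ℤ) ^ m := by
            have h5 := Algebra.norm_algebraMap (S := 𝓞 k) ((a * e0 : ℕ) : ℤ)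
            rw [RingOfIntegers.rank, hm] at h5
            rw [← h5]
            congr 1
            simp
          rw [h4, Int.natAbs_pow, Int.natAbs_natCast, ← pow_mul] at h3
          exact h3
        refine (Nat.le_of_dvd (by positivity) h2).trans ?_
        calc (a * e0) ^ (m * (n - 1)) ≤ (N * N) ^ (m * (n - 1)) :=
              Nat.pow_le_pow_left (Nat.mul_le_mul haN he0N) _
          _ = N ^ (2 * (m * (n - 1))) := by rw [← sq, ← pow_mul]
          _ ≤ N ^ (2 * m * n) := by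
              apply Nat.pow_le_pow_right (by omega)
              rw [mul_assoc]
              exact Nat.mul_le_mul_left _ (Nat.mul_le_mul_left _ (Nat.sub_le _ _))
      exact_mod_cast Nat.mul_le_mul h1 (Nat.pow_le_pow_left hqc n)
    obtain ⟨u, hu'⟩ := hu e₁ he₁0
    refine ⟨e₁ * u ^ n, s₀ * u, ?_, ?_, fun τ => ?_⟩
    · exact mul_ne_zero he₁0 (pow_ne_zero _ u.ne_zero)
    · rw [mul_pow, he₁]
      ring
    · refine (hu' τ).trans ?_
      calc c₂ * nr k e₁ ≤ (⌈c₂⌉₊ : ℝ) * ((N ^ (2 * m * n) * c₁ ^ n : ℕ) : ℝ) :=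
            mul_le_mul (Nat.le_ceil c₂) hnorm (by rw [nr]; positivity) (by positivity)
        _ = (((⌈c₂⌉₊ * c₁ ^ n) * N ^ (2 * m * n) : ℕ) : ℝ) := by
            push_cast
            ring
        _ ≤ (((⌈c₂⌉₊ * c₁ ^ n * N) ^ (2 * m * n + 1) : ℕ) : ℝ) := by
            apply Nat.cast_le.mpr
            rw [mul_pow]
            apply Nat.mul_le_mul
            · exact Nat.le_self_pow (by omega) _
            · exact Nat.pow_le_pow_right (by omega) (by omega)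
        _ = _ := by push_cast; ring

end Pool.Agent.K1H65.NF
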